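import Mathlib
import Pool.Agent.H295R3.Hoheisel
import Pool.Agent.H505R3.SieveG

set_option autoImplicit false

open Finset

set_option exponentiation.threshold 2000

namespace Pool.Agent.Results.MP_a17a46_nt.PowerSaving

/-- `B` is odd, `a = 2 φ(B) - B` is positive, and every prime factor of `B` is at most
`1 + B / a`. -/
def St (B a : ℕ) : Prop :=
  Odd B ∧ 1 < B ∧ 0 < a ∧ 2 * Nat.totient B = B + a ∧ ∀ q, q.Prime → q ∣ B → q * a ≤ B + a

lemma St.le {B a : ℕ} (h : St B a) : a ≤ B := by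
  have := Nat.totient_le B
  obtain ⟨-, -, -, h1, -⟩ := h
  omega

/-- adding the prime `p`, `(B + a) / a < p ≤ (2 (B + a) - a) / a` -/
lemma St.step {B a p : ℕ} (h : St B a) (hp : p.Prime) (h1 : B + a < p * a)
    (h2 : p * a + a ≤ 2 * (B + a)) : St (B * p) (p * a - (B + a)) := by
  have hle := h.le
  obtain ⟨hodd, hB, ha, hphi, hq⟩ := h
  have hp2 : p ≠ 2 := by
    rintro rfl
    omega
  have hpodd : Odd p := hp.odd_of_ne_two hp2
  have hnd : ¬ p ∣ B := by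
    intro hd
    have := hq p hp hd
    omega
  have hcop : Nat.Coprime B p := ((Nat.Prime.coprime_iff_not_dvd hp).2 hnd).symm
  have hp1 : 1 ≤ p := hp.one_le
  obtain ⟨d, hd⟩ : ∃ d, p * a = B + a + d := ⟨p * a - (B + a), by omega⟩
  have hd0 : 0 < d := by omega
  have hsub : p * a - (B + a) = d := by omega
  rw [hsub]
  have hkey : B * p + d = (B + a) * (p - 1) := by
    obtain ⟨r, rfl⟩ : ∃ r, p = r + 1 := ⟨p - 1, by omega⟩
    simp only [Nat.add_sub_cancel]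
    nlinarith
  refine ⟨hodd.mul hpodd, ?_, hd0, ?_, ?_⟩
  · have := hp.two_le
    nlinarith
  · rw [Nat.totient_mul hcop, Nat.totient_prime hp, hkey, ← hphi]
    ring
  · intro q hqp hqd
    have hqle : q ≤ p := by
      rcases (Nat.Prime.dvd_mul hqp).1 hqd with h3 | h3
      · have h4 := hq q hqp h3
        by_contra hc
        push Not at hc
        have : p * a < q * a := Nat.mul_lt_mul_of_pos_right hc ha
        omega
      · exact Nat.le_of_dvd hp.pos h3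
    refine (Nat.mul_le_mul_right d hqle).trans ?_
    -- `p d ≤ B p + d`
    have h5 : d + a ≤ B + a := by omega
    have h6 : d ≤ B := by omega
    nlinarith [Nat.mul_le_mul_left p h6]

lemma St.ratio {B a p : ℕ} (h : St B a) (h1 : B + a < p * a)
    (h2 : p * a + a ≤ 2 * (B + a)) (K : ℕ) (hK : K * a ≤ B) :
    2 * K * (p * a - (B + a)) ≤ B * p := by
  obtain ⟨d, hd⟩ : ∃ d, p * a = B + a + d := ⟨p * a - (B + a), by omega⟩
  have hsub : p * a - (B + a) = d := by omega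
  rw [hsub]
  have ha := h.2.2.1
  -- `2 d ≤ p a`
  have h3 : 2 * d ≤ p * a := by omega
  calc 2 * K * d = K * (2 * d) := by ring
    _ ≤ K * (p * a) := Nat.mul_le_mul_left K h3
    _ = (K * a) * p := by ring
    _ ≤ B * p := Nat.mul_le_mul_right p hK

lemma St_three : St 3 1 := by
  refine ⟨by decide, by norm_num, by norm_num, by decide, ?_⟩
  intro q hq hd
  have := Nat.le_of_dvd (by norm_num) hd
  omega

/-- Bertrand's postulate gives states with large ratio -/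
lemma exists_ratio (k : ℕ) : ∃ B a, St B a ∧ 2 ^ k * a ≤ B := by
  induction k with
  | zero => exact ⟨3, 1, St_three, by norm_num⟩
  | succ k ih =>
    obtain ⟨B, a, h, hk⟩ := ih
    have ha : 0 < a := h.2.2.1
    have hle := h.le
    set N := (B + a) / a with hN
    have hN2 : 2 ≤ N := by
      rw [hN, Nat.le_div_iff_mul_le ha]; omega
    obtain ⟨p, hp, hp1, hp2⟩ := Nat.exists_prime_lt_and_le_two_mul N (by omega)
    have hp3 : p ≠ 2 * N := by
      intro h3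
      rw [h3] at hp
      exact Nat.not_prime_mul (by norm_num) (by omega) hp
    have hNa : N * a ≤ B + a := Nat.div_mul_le_self _ _
    have hNa2 : B + a < (N + 1) * a := by
      have := Nat.lt_div_mul_add (a := B + a) ha
      rw [← hN] at this
      linarith
    have h1 : B + a < p * a := lt_of_lt_of_le hNa2 (Nat.mul_le_mul_right a hp1)
    have h2 : p * a + a ≤ 2 * (B + a) := by
      have : (p + 1) * a ≤ 2 * N * a := Nat.mul_le_mul_right a (by omega)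
      nlinarith
    refine ⟨_, _, h.step hp h1 h2, ?_⟩
    have := h.ratio h1 h2 (2 ^ k) hk
    calc 2 ^ (k + 1) * (p * a - (B + a)) = 2 * 2 ^ k * (p * a - (B + a)) := by ring
      _ ≤ B * p := this

/-- primes in short intervals give odd `B` with `2 φ(B) - B` smaller than `B` by a power -/
theorem approx (hH : ∃ δ η : ℝ, 0 < δ ∧ δ < 1 ∧ 0 < η ∧ ∃ X₀ : ℕ, 2 ≤ X₀ ∧
    ∀ X Y : ℕ, X₀ ≤ X → (X : ℝ) ^ (1 - δ) ≤ Y → Y ≤ X →
      η * Y / Real.log X ≤ (((Ioc X (X + Y)).filter Nat.Prime).card : ℝ)) :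
    ∃ c : ℝ, 0 < c ∧ c < 1 ∧ ∀ m : ℕ, ∃ B a : ℕ, 2 ^ m ≤ B ∧ St B a ∧ (a : ℝ) ≤ (B : ℝ) ^ (1 - c) := by
  obtain ⟨δ, η, hδ, hδ1, hη, X₀, hX₀, hprime⟩ := hH
  -- the threshold
  obtain ⟨k, hk⟩ : ∃ k : ℕ, max (max X₀ 3) ⌈(2 : ℝ) ^ (2 / δ)⌉₊ ≤ 2 ^ k :=
    ⟨_, (Nat.lt_two_pow_self).le⟩
  have hk1 : X₀ ≤ 2 ^ k := (le_max_left _ _).trans ((le_max_left _ _).trans hk)
  have hk2 : 3 ≤ 2 ^ k := (le_max_right _ _).trans ((le_max_left _ _).trans hk)
  have hk3 : (2 : ℝ) ^ (2 / δ) ≤ (2 : ℝ) ^ k := by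
    have h1 : ⌈(2 : ℝ) ^ (2 / δ)⌉₊ ≤ 2 ^ k := (le_max_right _ _).trans hk
    exact_mod_cast (Nat.le_ceil _).trans (by exact_mod_cast h1)
  obtain ⟨B0, a0, h0, hr0⟩ := exists_ratio k
  have hB0 : 1 < B0 := h0.2.1
  have hB0R : (1 : ℝ) < (B0 : ℝ) := by exact_mod_cast hB0
  have hlogB0 : 0 < Real.log B0 := Real.log_pos hB0R
  set c0 : ℝ := Real.log 2 / Real.log B0 with hc0
  have hc0pos : 0 < c0 := div_pos (Real.log_pos (by norm_num)) hlogB0
  set c : ℝ := min (δ / 2) c0 with hc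
  have hcpos : 0 < c := lt_min (by linarith) hc0pos
  have hc1 : c ≤ δ / 2 := min_le_left _ _
  have hc2 : c ≤ c0 := min_le_right _ _
  refine ⟨c, hcpos, by linarith, ?_⟩
  have main : ∀ m : ℕ, ∃ B a : ℕ, 2 ^ m ≤ B ∧ St B a ∧ 2 ^ k * a ≤ B ∧ (a : ℝ) ≤ (B : ℝ) ^ (1 - c) := by
    intro m
    induction m with
    | zero =>
      refine ⟨B0, a0, by simpa using hB0.le, h0, hr0, ?_⟩
      have h1 : (B0 : ℝ) ^ c ≤ 2 := by
        calc (B0 : ℝ) ^ c ≤ (B0 : ℝ) ^ c0 := Real.rpow_le_rpow_of_exponent_le hB0R.le hc2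
          _ = 2 := by
            rw [Real.rpow_def_of_pos (by linarith), hc0, mul_div_cancel₀ _ hlogB0.ne']
            exact Real.exp_log (by norm_num)
      have h2 : (2 : ℝ) * (a0 : ℝ) ≤ B0 := by
        have h3 : 2 * a0 ≤ B0 := by nlinarith [h0.2.2.1]
        exact_mod_cast h3
      rw [Real.rpow_sub (by linarith), Real.rpow_one, le_div_iff₀ (Real.rpow_pos_of_pos (by linarith) _)]
      have h4 : (0 : ℝ) ≤ (a0 : ℝ) := Nat.cast_nonneg _
      nlinarith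
    | succ m ih =>
      obtain ⟨B, a, hm, h, hr, hpow⟩ := ih
      have ha : 0 < a := h.2.2.1
      have hBpos : 0 < B := by have := h.2.1; omega
      set N := (B + a) / a with hN
      have hN1 : 2 ^ k + 1 ≤ N := by
        rw [hN, Nat.le_div_iff_mul_le ha]; nlinarith
      have hNa : N * a ≤ B + a := Nat.div_mul_le_self _ _
      have hNa2 : B + a < (N + 1) * a := by
        have := Nat.lt_div_mul_add (a := B + a) ha
        rw [← hN] at this
        linarith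
      have hNR : (2 : ℝ) ^ (2 / δ) ≤ (N : ℝ) := by
        refine hk3.trans ?_
        have : 2 ^ k ≤ N := by omega
        exact_mod_cast this
      have hN3 : (3 : ℝ) ≤ (N : ℝ) := by
        have : 3 ≤ N := by omega
        exact_mod_cast this
      have hN0 : (0 : ℝ) < (N : ℝ) := by linarith
      have hNone : (1 : ℝ) ≤ (N : ℝ) := by linarith
      -- `N ^ (δ / 2) ≥ 2`
      have hd2 : (2 : ℝ) ≤ (N : ℝ) ^ (δ / 2) := by
        calc (2 : ℝ) = ((2 : ℝ) ^ (2 / δ)) ^ (δ / 2) := by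
              rw [← Real.rpow_mul (by norm_num)]
              rw [div_mul_div_comm, mul_comm δ 2, div_self (by positivity), Real.rpow_one]
          _ ≤ (N : ℝ) ^ (δ / 2) := Real.rpow_le_rpow (by positivity) hNR (by linarith)
      have hspl : (N : ℝ) ^ (1 - δ) * (N : ℝ) ^ (δ / 2) = (N : ℝ) ^ (1 - δ / 2) := by
        rw [← Real.rpow_add hN0]; congr 1; ring
      have hspl2 : (N : ℝ) ^ (1 - δ / 2) * (N : ℝ) ^ (δ / 2) = (N : ℝ) := by
        rw [← Real.rpow_add hN0]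
        have : 1 - δ / 2 + δ / 2 = 1 := by ring
        rw [this, Real.rpow_one]
      have hx1 : (1 : ℝ) ≤ (N : ℝ) ^ (1 - δ) := Real.one_le_rpow hNone (by linarith)
      have hx2 : 2 * (N : ℝ) ^ (1 - δ) ≤ (N : ℝ) ^ (1 - δ / 2) := by
        rw [← hspl]; nlinarith
      have hx3 : 2 * (N : ℝ) ^ (1 - δ / 2) ≤ (N : ℝ) := by
        have h5 : 0 < (N : ℝ) ^ (1 - δ / 2) := Real.rpow_pos_of_pos hN0 _
        calc 2 * (N : ℝ) ^ (1 - δ / 2) ≤ (N : ℝ) ^ (1 - δ / 2) * (N : ℝ) ^ (δ / 2) := by nlinarith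
          _ = N := hspl2
      set Y := ⌈(N : ℝ) ^ (1 - δ)⌉₊ with hY
      have hYge : (N : ℝ) ^ (1 - δ) ≤ (Y : ℝ) := Nat.le_ceil _
      have hYlt : (Y : ℝ) < (N : ℝ) ^ (1 - δ) + 1 := Nat.ceil_lt_add_one (by linarith)
      have hYN : Y + 1 ≤ N := by
        have : ((Y + 1 : ℕ) : ℝ) < (N : ℝ) + 1 := by push_cast; nlinarith
        have h6 : Y + 1 < N + 1 := by exact_mod_cast this
        omega
      have hcard := hprime N Y (by omega) hYge (by omega)
      have hpos : 0 < η * Y / Real.log N := by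
        have h7 : 0 < Real.log (N : ℝ) := Real.log_pos (by linarith)
        have h8 : (0 : ℝ) < Y := by linarith
        positivity
      have hne : ((Ioc N (N + Y)).filter Nat.Prime).Nonempty := by
        rw [← Finset.card_pos]
        have : (0 : ℝ) < (((Ioc N (N + Y)).filter Nat.Prime).card : ℝ) := by linarith
        exact_mod_cast this
      obtain ⟨p, hp⟩ := hne
      rw [mem_filter, mem_Ioc] at hp
      obtain ⟨⟨hp1, hp2⟩, hpp⟩ := hp
      have h1 : B + a < p * a := lt_of_lt_of_le hNa2 (Nat.mul_le_mul_right a hp1)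
      have h2 : p * a + a ≤ 2 * (B + a) := by
        have : (p + 1) * a ≤ 2 * N * a := Nat.mul_le_mul_right a (by omega)
        nlinarith
      have hr' := h.ratio h1 h2 (2 ^ k) hr
      refine ⟨B * p, p * a - (B + a), ?_, h.step hpp h1 h2, ?_, ?_⟩
      · rw [pow_succ]
        exact Nat.mul_le_mul hm hpp.two_le
      · refine le_trans ?_ hr'
        rw [mul_comm 2, mul_assoc]
        exact Nat.mul_le_mul_left _ (by omega)
      · have ha' : p * a - (B + a) ≤ Y * a := by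
          have : p * a ≤ (N + Y) * a := Nat.mul_le_mul_right a hp2
          have h9 : (N + Y) * a = N * a + Y * a := by ring
          omega
        have ha'R : ((p * a - (B + a) : ℕ) : ℝ) ≤ (Y : ℝ) * (a : ℝ) := by exact_mod_cast ha'
        have hapos : (0 : ℝ) < (a : ℝ) := by exact_mod_cast ha
        have hBR : (0 : ℝ) < (B : ℝ) := by exact_mod_cast hBpos
        have hBc : (0 : ℝ) < (B : ℝ) ^ (1 - c) := Real.rpow_pos_of_pos hBR _
        have hNc : (N : ℝ) ^ (1 - δ / 2) ≤ (N : ℝ) ^ (1 - c) :=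
          Real.rpow_le_rpow_of_exponent_le hNone (by linarith)
        have hYb : (Y : ℝ) ≤ (N : ℝ) ^ (1 - c) := by linarith
        calc ((p * a - (B + a) : ℕ) : ℝ) ≤ (Y : ℝ) * (a : ℝ) := ha'R
          _ ≤ (N : ℝ) ^ (1 - c) * (B : ℝ) ^ (1 - c) := by
            apply mul_le_mul hYb hpow hapos.le
            exact (Real.rpow_pos_of_pos hN0 _).le
          _ = ((N : ℝ) * (B : ℝ)) ^ (1 - c) := (Real.mul_rpow hN0.le hBR.le).symm
          _ ≤ ((B * p : ℕ) : ℝ) ^ (1 - c) := by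
            apply Real.rpow_le_rpow (by positivity) _ (by linarith)
            push_cast
            have : (N : ℝ) ≤ (p : ℝ) := by exact_mod_cast hp1.le
            nlinarith
  intro m
  obtain ⟨B, a, h1, h2, -, h3⟩ := main m
  exact ⟨B, a, h1, h2, h3⟩

/-- excluded classes -/
def Om (B p : ℕ) : Finset ℕ :=
  (range p).filter (fun r => (2 * r + 1) % p = 0 ∨ (B * (2 * r + 1)) % p = 1)

lemma Om_card {B p : ℕ} (hp : p.Prime) (h2 : p ≠ 2) (hB : ¬ p ∣ B) : (Om B p).card ≤ 2 := by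
  have hcop2 : Nat.Coprime p 2 := (Nat.coprime_primes hp Nat.prime_two).2 h2
  have hcopB : Nat.Coprime p B := (Nat.Prime.coprime_iff_not_dvd hp).2 hB
  have key : ∀ b : ℕ, Nat.Coprime p b → ∀ e f : ℕ,
      ((range p).filter (fun r => (b * r + e) % p = f)).card ≤ 1 := by
    intro b hb e f
    rw [Finset.card_le_one]
    intro x hx y hy
    rw [mem_filter, mem_range] at hx hy
    have h1 : b * x + e ≡ b * y + e [MOD p] := by
      unfold Nat.ModEq; rw [hx.2, hy.2]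
    have h3 : b * x ≡ b * y [MOD p] := Nat.ModEq.add_right_cancel' e h1
    have h4 : x ≡ y [MOD p] := Nat.ModEq.cancel_left_of_coprime hb h3
    exact Nat.ModEq.eq_of_lt_of_lt h4 hx.1 hy.1
  have h1 := key 2 hcop2 1 0
  have h3 := key (2 * B) (Nat.Coprime.mul_right hcop2 hcopB) B 1
  have h4 : Om B p ⊆ ((range p).filter (fun r => (2 * r + 1) % p = 0)) ∪
      ((range p).filter (fun r => (2 * B * r + B) % p = 1)) := by
    intro r hr
    unfold Om at hr
    rw [mem_filter] at hr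
    rw [mem_union, mem_filter, mem_filter]
    rcases hr.2 with h | h
    · left; exact ⟨hr.1, h⟩
    · right
      refine ⟨hr.1, ?_⟩
      rw [← h]; congr 1; ring
  exact (Finset.card_le_card h4).trans ((Finset.card_union_le _ _).trans (by omega))

lemma num_ineq (I : ℕ) (hI : 9 ≤ I) : 47 * I + 1 < 2 ^ I := by
  induction I, hI using Nat.le_induction with
  | base => norm_num
  | succ n hn ih => rw [pow_succ]; omega

lemma exp32 : Real.exp 32 ≤ 2 ^ 47 := by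
  have h1 : Real.exp 32 = Real.exp 1 ^ 32 := by
    rw [← Real.exp_nat_mul]; norm_num
  rw [h1]
  have h2 := Real.exp_one_lt_d9
  calc Real.exp 1 ^ 32 ≤ 2.7182818286 ^ 32 := pow_le_pow_left₀ (Real.exp_pos 1).le h2.le 32
    _ ≤ 2 ^ 47 := by norm_num

theorem sieve_part (B : ℕ) (hB : 2 ^ 2 ^ 8 < B) :
    ∃ k : ℕ, k ≤ B ^ 906 ∧ ∀ p : ℕ, p.Prime → p ≠ 2 → ¬ p ∣ B → p ≤ B →
      ¬ p ∣ (2 * k + 1) ∧ ¬ p ∣ (B * (2 * k + 1) - 1) := by
  classical
  have hex : ∃ I : ℕ, B ≤ 2 ^ 2 ^ I := ⟨B, (Nat.lt_two_pow_self.le).trans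
    (Nat.pow_le_pow_right (by norm_num) Nat.lt_two_pow_self.le)⟩
  set I := Nat.find hex with hIdef
  have hI1 : B ≤ 2 ^ 2 ^ I := Nat.find_spec hex
  have hI9 : 9 ≤ I := by
    by_contra hc
    push Not at hc
    have h1 : 2 ^ 2 ^ I ≤ 2 ^ 2 ^ 8 :=
      Nat.pow_le_pow_right (by norm_num) (Nat.pow_le_pow_right (by norm_num) (by omega))
    omega
  have hI2 : 2 ^ 2 ^ I ≤ B ^ 2 := by
    have h1 : ¬ B ≤ 2 ^ 2 ^ (I - 1) := Nat.find_min hex (by omega)
    have h2 : 2 ^ 2 ^ I = (2 ^ 2 ^ (I - 1)) ^ 2 := by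
      rw [← pow_mul, ← pow_succ]
      congr 2
      omega
    rw [h2]
    exact Nat.pow_le_pow_left (by omega) 2
  set S : Finset ℕ := (Finset.Icc 3 (2 ^ 2 ^ I)).filter (fun p => p.Prime ∧ ¬ p ∣ B) with hS
  have hmem : ∀ p ∈ S, p.Prime ∧ 3 ≤ p ∧ p ≤ 2 ^ 2 ^ I ∧ ¬ p ∣ B := by
    intro p hp
    rw [hS, mem_filter, mem_Icc] at hp
    exact ⟨hp.2.1, hp.1.1, hp.1.2, hp.2.2⟩
  have hcardΩ : ∀ p ∈ S, (Om B p).card ≤ 2 := fun p hp =>
    Om_card (hmem p hp).1 (by have := (hmem p hp).2.1; omega) (hmem p hp).2.2.2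
  have key := Pool.Agent.H505R3.sieve_lowerG (Ω := Om B) 1 (by norm_num) S (fun p hp => (hmem p hp).1)
    (fun p hp => by have h1 := hcardΩ p hp; have h2 := (hmem p hp).2.1; omega)
    (fun p hp => filter_subset _ _) (fun p hp => by simpa using hcardΩ p hp) I (by omega)
    (fun p hp => (hmem p hp).2.2.1) (2 ^ (453 * 2 ^ I))
  have hpos : (0 : ℝ) < ((2 ^ (453 * 2 ^ I) : ℕ) : ℝ) * (Real.exp (-(32 * ((1 : ℕ) : ℝ))) ^ I / 2) -
      (2 : ℝ) ^ ((420 * 1 + 32) * 2 ^ I) := by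
    have h1 : Real.exp (-(32 * ((1 : ℕ) : ℝ))) = (Real.exp 32)⁻¹ := by
      rw [← Real.exp_neg]; congr 1; norm_num
    rw [h1, inv_pow]
    have h2 : (Real.exp 32) ^ I ≤ (2 : ℝ) ^ (47 * I) := by
      rw [pow_mul]
      exact pow_le_pow_left₀ (Real.exp_pos _).le exp32 I
    have h3 : 0 < (Real.exp 32) ^ I := by positivity
    have h4 : (2 : ℝ) ^ (47 * I + 1) < (2 : ℝ) ^ (2 ^ I) :=
      pow_lt_pow_right₀ (by norm_num) (num_ineq I hI9)
    have h5 : (2 : ℝ) ^ (453 * 2 ^ I) = (2 : ℝ) ^ (452 * 2 ^ I) * (2 : ℝ) ^ (2 ^ I) := by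
      rw [← pow_add]; congr 1; ring
    have h6 : (0 : ℝ) < (2 : ℝ) ^ (452 * 2 ^ I) := by positivity
    have h7 : ((420 * 1 + 32) * 2 ^ I) = 452 * 2 ^ I := by ring
    rw [h7]
    push_cast
    rw [h5, sub_pos]
    have h8 : (1 : ℝ) < (2 : ℝ) ^ (2 ^ I) * (((Real.exp 32) ^ I)⁻¹ / 2) := by
      have h9 : (2 : ℝ) ^ (2 ^ I) * (((Real.exp 32) ^ I)⁻¹ / 2) = (2 : ℝ) ^ (2 ^ I) / (2 * (Real.exp 32) ^ I) := by
        rw [div_eq_mul_inv, div_eq_mul_inv, mul_inv]
        ring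
      rw [h9, lt_div_iff₀ (by positivity)]
      calc 1 * (2 * Real.exp 32 ^ I) ≤ 2 * (2 : ℝ) ^ (47 * I) := by linarith
        _ = (2 : ℝ) ^ (47 * I + 1) := by ring
        _ < _ := h4
    calc (2 : ℝ) ^ (452 * 2 ^ I) = (2 : ℝ) ^ (452 * 2 ^ I) * 1 := by ring
      _ < (2 : ℝ) ^ (452 * 2 ^ I) * ((2 : ℝ) ^ (2 ^ I) * (((Real.exp 32) ^ I)⁻¹ / 2)) :=
        mul_lt_mul_of_pos_left h8 h6
      _ = _ := by ring
  have hcard : (0 : ℝ) < (((Ioc 0 (2 ^ (453 * 2 ^ I))).filter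
      (fun n => ∀ p ∈ S, n % p ∉ Om B p)).card : ℝ) := lt_of_lt_of_le hpos key
  have hne : ((Ioc 0 (2 ^ (453 * 2 ^ I))).filter (fun n => ∀ p ∈ S, n % p ∉ Om B p)).Nonempty := by
    rw [← Finset.card_pos]; exact_mod_cast hcard
  obtain ⟨k, hk⟩ := hne
  rw [mem_filter, mem_Ioc] at hk
  refine ⟨k, ?_, ?_⟩
  · calc k ≤ 2 ^ (453 * 2 ^ I) := hk.1.2
      _ = (2 ^ 2 ^ I) ^ 453 := by rw [← pow_mul]; congr 1; ring
      _ ≤ (B ^ 2) ^ 453 := Nat.pow_le_pow_left hI2 _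
      _ = B ^ 906 := by rw [← pow_mul]
  · intro p hp h2 hpB hle
    have hpS : p ∈ S := by
      rw [hS, mem_filter, mem_Icc]
      have := hp.two_le
      exact ⟨⟨by omega, hle.trans hI1⟩, hp, hpB⟩
    have h3 := hk.2 p hpS
    unfold Om at h3
    rw [mem_filter, mem_range] at h3
    push Not at h3
    obtain ⟨h4, h5⟩ := h3 (Nat.mod_lt _ hp.pos)
    have hp3 : 3 ≤ p := by have := hp.two_le; omega
    refine ⟨fun hd => h4 ?_, fun hd => h5 ?_⟩
    · have h6 : 2 * (k % p) + 1 ≡ 2 * k + 1 [MOD p] :=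
        Nat.ModEq.add_right 1 (Nat.ModEq.mul_left 2 (Nat.mod_modEq k p))
      have h7 : (2 * k + 1) % p = 0 := Nat.mod_eq_zero_of_dvd hd
      rw [← h7]; exact h6
    · have h6 : B * (2 * (k % p) + 1) ≡ B * (2 * k + 1) [MOD p] :=
        Nat.ModEq.mul_left B (Nat.ModEq.add_right 1 (Nat.ModEq.mul_left 2 (Nat.mod_modEq k p)))
      have hge : 1 ≤ B * (2 * k + 1) := Nat.mul_pos (by omega) (by omega)
      have h7 : 1 ≡ B * (2 * k + 1) [MOD p] := (Nat.modEq_iff_dvd' hge).2 hd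
      have h8 : B * (2 * (k % p) + 1) ≡ 1 [MOD p] := h6.trans h7.symm
      unfold Nat.ModEq at h8
      rw [h8]
      exact Nat.mod_eq_of_lt (by omega)

lemma prod_ge (F : Finset ℕ) (z : ℝ) (hz : 1 ≤ z) (h : ∀ p ∈ F, z ≤ (p : ℝ)) :
    1 - (F.card : ℝ) / z ≤ ∏ p ∈ F, (1 - (p : ℝ)⁻¹) ∧ ∏ p ∈ F, (1 - (p : ℝ)⁻¹) ≤ 1 ∧
      0 ≤ ∏ p ∈ F, (1 - (p : ℝ)⁻¹) := by
  classical
  induction F using Finset.induction_on with
  | empty => simp
  | insert a F ha ih =>
    obtain ⟨h1, h2, h3⟩ := ih (fun p hp => h p (mem_insert_of_mem hp))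
    have hza := h a (mem_insert_self _ _)
    have ha0 : (0 : ℝ) < a := by linarith
    have h4 : (a : ℝ)⁻¹ ≤ 1 / z := by
      rw [one_div]; exact inv_anti₀ (by linarith) hza
    have h5 : 0 < (a : ℝ)⁻¹ := inv_pos.2 ha0
    have h6 : 1 / z ≤ 1 := by rw [div_le_one (by linarith)]; exact hz
    rw [prod_insert ha, card_insert_of_notMem ha]
    refine ⟨?_, ?_, ?_⟩
    · push_cast
      rw [add_div]
      nlinarith
    · nlinarith
    · apply mul_nonneg _ h3
      linarith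

lemma totient_real (m : ℕ) : (Nat.totient m : ℝ) = m * ∏ p ∈ m.primeFactors, (1 - (p : ℝ)⁻¹) := by
  have h := Nat.totient_eq_mul_prod_factors m
  have h2 : ((Nat.totient m : ℚ) : ℝ) = ((m * ∏ p ∈ m.primeFactors, (1 - (p : ℚ)⁻¹) : ℚ) : ℝ) := by
    rw [h]
  push_cast at h2
  exact h2

lemma card_le_log (m : ℕ) (hm : 1 ≤ m) : ((m.primeFactors.card : ℕ) : ℝ) ≤ 2 * Real.log m := by
  have h1 : 2 ^ m.primeFactors.card ≤ m := by
    calc 2 ^ m.primeFactors.card = ∏ p ∈ m.primeFactors, 2 := by rw [prod_const]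
      _ ≤ ∏ p ∈ m.primeFactors, p := prod_le_prod' fun p hp => (Nat.prime_of_mem_primeFactors hp).two_le
      _ ≤ m := Nat.le_of_dvd hm (Nat.prod_primeFactors_dvd m)
  have h2 : (2 : ℝ) ^ m.primeFactors.card ≤ (m : ℝ) := by exact_mod_cast h1
  have h3 := Real.log_le_log (by positivity) h2
  rw [Real.log_pow] at h3
  have h4 := Real.log_two_gt_d9
  have h5 : (0 : ℝ) ≤ (m.primeFactors.card : ℝ) := Nat.cast_nonneg _
  nlinarith

/-- the estimate for the difference -/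
theorem diff_bound (B a k : ℕ) (h : St B a)
    (hk : ∀ p : ℕ, p.Prime → p ≠ 2 → ¬ p ∣ B → p ≤ B →
      ¬ p ∣ (2 * k + 1) ∧ ¬ p ∣ (B * (2 * k + 1) - 1)) (n : ℕ) (hn : n + 1 = B * (2 * k + 1)) :
    |((Nat.totient (n + 1) : ℝ) - (Nat.totient n : ℝ))| ≤
      ((n : ℝ) + 1) * (a / B + Real.log (n + 1) / B) + 1 / 2 := by
  classical
  obtain ⟨hodd, hB1, ha, hphi, -⟩ := h
  have hBR : (1 : ℝ) < B := by exact_mod_cast hB1
  have hn1 : n = B * (2 * k + 1) - 1 := by omega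
  have hodd1 : Odd (n + 1) := by rw [hn]; exact hodd.mul ⟨k, rfl⟩
  have heven : 2 ∣ n := by
    obtain ⟨r, hr⟩ := hodd1
    exact ⟨r, by omega⟩
  have hnpos : 0 < n := by
    have : B ≤ B * (2 * k + 1) := Nat.le_mul_of_pos_right _ (by omega)
    omega
  -- prime factors of `n`
  have h2n : 2 ∈ n.primeFactors := Nat.mem_primeFactors.2 ⟨Nat.prime_two, heven, by omega⟩
  set F1 := n.primeFactors.erase 2 with hF1
  have hF1b : ∀ p ∈ F1, (B : ℝ) ≤ (p : ℝ) := by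
    intro p hp
    rw [hF1, mem_erase, Nat.mem_primeFactors] at hp
    obtain ⟨hp2, hpp, hpn, -⟩ := hp
    by_contra hc
    push Not at hc
    have hc' : p < B := by exact_mod_cast hc
    have hnB : ¬ p ∣ B := by
      intro hd
      have h3 : p ∣ n + 1 := hn ▸ (hd.mul_right _)
      have h4 : p ∣ 1 := (Nat.dvd_add_right hpn).1 h3
      exact hpp.one_lt.ne' (Nat.dvd_one.1 h4)
    exact (hk p hpp hp2 hnB hc'.le).2 (hn1 ▸ hpn)
  -- prime factors of `n + 1`
  have hsub : B.primeFactors ⊆ (n + 1).primeFactors := by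
    apply Nat.primeFactors_mono _ (by omega)
    rw [hn]; exact dvd_mul_right _ _
  set F2 := (n + 1).primeFactors \ B.primeFactors with hF2
  have hF2b : ∀ p ∈ F2, (B : ℝ) ≤ (p : ℝ) := by
    intro p hp
    rw [hF2, mem_sdiff, Nat.mem_primeFactors, Nat.mem_primeFactors] at hp
    obtain ⟨⟨hpp, hpn, -⟩, hnB⟩ := hp
    have hnB' : ¬ p ∣ B := fun hd => hnB ⟨hpp, hd, by omega⟩
    by_contra hc
    push Not at hc
    have hc' : p < B := by exact_mod_cast hc
    have hp2 : p ≠ 2 := by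
      rintro rfl
      obtain ⟨r, hr⟩ := hodd1
      obtain ⟨t, ht⟩ := hpn
      omega
    have hpw : p ∣ 2 * k + 1 := by
      rw [hn] at hpn
      exact ((Nat.Prime.dvd_mul hpp).1 hpn).resolve_left hnB'
    exact (hk p hpp hp2 hnB' hc'.le).1 hpw
  obtain ⟨p1, p2, p3⟩ := prod_ge F1 B hBR.le hF1b
  obtain ⟨q1, q2, q3⟩ := prod_ge F2 B hBR.le hF2b
  set P := ∏ p ∈ F1, (1 - (p : ℝ)⁻¹) with hP
  set R := ∏ p ∈ F2, (1 - (p : ℝ)⁻¹) with hR
  have e1 : (Nat.totient n : ℝ) = n * (1 / 2 * P) := by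
    rw [totient_real n, ← mul_prod_erase _ _ h2n]
    norm_num
    rw [hP, hF1]
    left; ring
  have e2 : (Nat.totient (n + 1) : ℝ) = ((n : ℝ) + 1) * ((1 / 2 + a / (2 * B)) * R) := by
    have h3 := totient_real (n + 1)
    have h4 := totient_real B
    have h5 : ∏ p ∈ (n + 1).primeFactors, (1 - (p : ℝ)⁻¹) =
        R * ∏ p ∈ B.primeFactors, (1 - (p : ℝ)⁻¹) := (prod_sdiff hsub).symm
    have h6 : 2 * (Nat.totient B : ℝ) = B + a := by exact_mod_cast hphi
    have hB0 : (B : ℝ) ≠ 0 := by linarith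
    have h7 : ∏ p ∈ B.primeFactors, (1 - (p : ℝ)⁻¹) = 1 / 2 + a / (2 * B) := by
      rw [h4] at h6
      have h8 : ∏ p ∈ B.primeFactors, (1 - (p : ℝ)⁻¹) = ((B : ℝ) + a) / (2 * B) := by
        rw [eq_div_iff (by positivity)]
        linarith
      rw [h8]
      field_simp
    rw [h3, h5, h7]
    push_cast
    ring
  -- cardinalities
  have c1 : (F1.card : ℝ) ≤ 2 * Real.log (n + 1) := by
    have h3 : F1.card ≤ n.primeFactors.card := card_le_card (erase_subset _ _)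
    have h4 := card_le_log n hnpos
    have h5 : Real.log n ≤ Real.log (n + 1) := Real.log_le_log (by exact_mod_cast hnpos) (by linarith)
    have h6 : (F1.card : ℝ) ≤ (n.primeFactors.card : ℝ) := by exact_mod_cast h3
    linarith
  have c2 : (F2.card : ℝ) ≤ 2 * Real.log (n + 1) := by
    have h3 : F2.card ≤ (n + 1).primeFactors.card := card_le_card sdiff_subset
    have h4 := card_le_log (n + 1) (by omega)
    have h6 : (F2.card : ℝ) ≤ ((n + 1).primeFactors.card : ℝ) := by exact_mod_cast h3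
    push_cast at h4
    linarith
  have hB0 : (0 : ℝ) < B := by linarith
  have d1 : 1 - P ≤ 2 * Real.log (n + 1) / B := by
    have : (F1.card : ℝ) / B ≤ 2 * Real.log (n + 1) / B := div_le_div_of_nonneg_right c1 hB0.le
    linarith
  have d2 : 1 - R ≤ 2 * Real.log (n + 1) / B := by
    have : (F2.card : ℝ) / B ≤ 2 * Real.log (n + 1) / B := div_le_div_of_nonneg_right c2 hB0.le
    linarith
  set L := Real.log (n + 1) / B with hL
  have hL2 : 2 * Real.log (n + 1) / B = 2 * L := by rw [hL]; ring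
  rw [hL2] at d1 d2
  set A : ℝ := (a : ℝ) / B with hA
  have hA2 : (a : ℝ) / (2 * B) = A / 2 := by rw [hA]; field_simp
  have hA0 : 0 ≤ A := by rw [hA]; positivity
  rw [e1, e2, hA2]
  set x : ℝ := (n : ℝ) + 1 with hx
  have hn' : (n : ℝ) = x - 1 := by rw [hx]; ring
  have hx1 : 1 ≤ x := by rw [hx]; linarith [Nat.cast_nonneg (α := ℝ) n]
  rw [hn']
  have hid : x * ((1 / 2 + A / 2) * R) - (x - 1) * (1 / 2 * P) =
      x / 2 * (A * R) + x / 2 * ((1 - P) - (1 - R)) + 1 / 2 * P := by ring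
  rw [hid, abs_le]
  have s1 : A * R ≤ A := by nlinarith
  have s0 : 0 ≤ A * R := mul_nonneg hA0 q3
  have s2 : (1 - P) - (1 - R) ≤ 2 * L := by linarith
  have s3 : -(2 * L) ≤ (1 - P) - (1 - R) := by linarith
  have s4 : x / 2 * (A * R) ≤ x / 2 * A := mul_le_mul_of_nonneg_left s1 (by linarith)
  have s5 : x / 2 * ((1 - P) - (1 - R)) ≤ x / 2 * (2 * L) := mul_le_mul_of_nonneg_left s2 (by linarith)
  have s6 : x / 2 * (-(2 * L)) ≤ x / 2 * ((1 - P) - (1 - R)) := mul_le_mul_of_nonneg_left s3 (by linarith)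
  have s7 : 0 ≤ x / 2 * (A * R) := by positivity
  have s8 : x / 2 * A ≤ x * A := by nlinarith
  have s9 : 0 ≤ x * A := by positivity
  have s10 : x / 2 * (2 * L) = x * L := by ring
  have s11 : x / 2 * (-(2 * L)) = -(x * L) := by ring
  rw [s10] at s5
  rw [s11] at s6
  have s12 : x * (A + L) = x * A + x * L := by ring
  rw [s12]
  constructor
  · linarith
  · linarith

lemma final_ineq (c : ℝ) (hc : 0 < c) (hc1 : c < 1) :
    ∃ X : ℝ, 1 ≤ X ∧ ∀ x : ℝ, X ≤ x → ∀ b : ℝ, 0 < b → x ≤ b ^ (908 : ℕ) →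
      x * (b ^ (-c) + Real.log x / b) + 1 / 2 < (x / 2) ^ (1 - c / 1000) := by
  have hc' : 0 < c / 908 - c / 1000 := by linarith
  set e := c / 908 - c / 1000 with he
  have h1 := (isLittleO_log_rpow_atTop hc').def (show (0 : ℝ) < 1 / 8 by norm_num)
  have h2 : ∀ᶠ x : ℝ in Filter.atTop, (16 : ℝ) ≤ x ^ e :=
    (tendsto_rpow_atTop hc').eventually_ge_atTop 16
  obtain ⟨X, hX⟩ := Filter.eventually_atTop.1 ((h1.and h2).and (Filter.eventually_ge_atTop (2 : ℝ)))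
  refine ⟨max X 2, by linarith [le_max_right X 2], fun x hx b hb hxb => ?_⟩
  obtain ⟨⟨k1, k2⟩, k3⟩ := hX x ((le_max_left _ _).trans hx)
  have hx0 : (0 : ℝ) < x := by linarith
  have hx1 : (1 : ℝ) ≤ x := by linarith
  have hlog : 0 ≤ Real.log x := Real.log_nonneg hx1
  have hxe : 0 < x ^ e := Real.rpow_pos_of_pos hx0 _
  rw [Real.norm_of_nonneg hlog, Real.norm_of_nonneg hxe.le] at k1
  -- `b ≥ x ^ (1 / 908)`
  have hb1 : x ^ ((1 : ℝ) / 908) ≤ b := by
    calc x ^ ((1 : ℝ) / 908) ≤ (b ^ (908 : ℕ)) ^ ((1 : ℝ) / 908) :=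
          Real.rpow_le_rpow hx0.le hxb (by norm_num)
      _ = b := by
        rw [← Real.rpow_natCast, ← Real.rpow_mul hb.le]
        norm_num
  have hb2 : b ^ (-c) ≤ x ^ (-(c / 908)) := by
    calc b ^ (-c) ≤ (x ^ ((1 : ℝ) / 908)) ^ (-c) :=
          Real.rpow_le_rpow_of_nonpos (Real.rpow_pos_of_pos hx0 _) hb1 (by linarith)
      _ = x ^ (-(c / 908)) := by
        rw [← Real.rpow_mul hx0.le]; congr 1; ring
  have hb3 : Real.log x / b ≤ Real.log x * x ^ (-(c / 908)) := by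
    rw [div_eq_mul_inv]
    apply mul_le_mul_of_nonneg_left _ hlog
    calc b⁻¹ ≤ (x ^ ((1 : ℝ) / 908))⁻¹ := inv_anti₀ (Real.rpow_pos_of_pos hx0 _) hb1
      _ = x ^ (-((1 : ℝ) / 908)) := (Real.rpow_neg hx0.le _).symm
      _ ≤ x ^ (-(c / 908)) := Real.rpow_le_rpow_of_exponent_le hx1 (by linarith)
  have hy : x * x ^ (-(c / 908)) = x ^ (1 - c / 908) := by
    rw [sub_eq_add_neg, Real.rpow_add hx0, Real.rpow_one]
  have hy1 : (1 : ℝ) ≤ x ^ (1 - c / 908) := Real.one_le_rpow hx1 (by linarith)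
  have hsp : x ^ (1 - c / 1000) = x ^ (1 - c / 908) * x ^ e := by
    rw [← Real.rpow_add hx0]; congr 1; rw [he]; ring
  have hhalf : x ^ (1 - c / 1000) / 2 ≤ (x / 2) ^ (1 - c / 1000) := by
    rw [Real.div_rpow hx0.le (by norm_num)]
    apply div_le_div_of_nonneg_left (Real.rpow_pos_of_pos hx0 _).le (by positivity)
    calc (2 : ℝ) ^ (1 - c / 1000) ≤ (2 : ℝ) ^ (1 : ℝ) :=
          Real.rpow_le_rpow_of_exponent_le (by norm_num) (by linarith)
      _ = 2 := Real.rpow_one 2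
  refine lt_of_lt_of_le ?_ hhalf
  rw [hsp]
  set y := x ^ (1 - c / 908) with hydef
  set w := x ^ e with hw
  set v := x ^ (-(c / 908)) with hv
  have t1 : x * (b ^ (-c) + Real.log x / b) ≤ x * (v + Real.log x * v) :=
    mul_le_mul_of_nonneg_left (add_le_add hb2 hb3) hx0.le
  have t2 : x * (v + Real.log x * v) = y + Real.log x * y := by
    rw [← hy]; ring
  have t3 : Real.log x * y ≤ (1 / 8 * w) * y := mul_le_mul_of_nonneg_right k1 (by linarith)
  have t4 : 16 * y ≤ w * y := mul_le_mul_of_nonneg_right k2 (by linarith)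
  nlinarith

/-- There is `θ < 1` such that `|φ(n + 1) - φ(n)| < n ^ θ` for infinitely many `n`. -/
theorem result : ∃ θ : ℝ, 0 < θ ∧ θ < 1 ∧
    Set.Infinite {n : ℕ | |((Nat.totient (n + 1) : ℝ) - (Nat.totient n : ℝ))| < (n : ℝ) ^ θ} := by
  obtain ⟨c, hc, hc1, hB⟩ := approx Pool.Agent.H295R3.D.hoheisel
  refine ⟨1 - c / 1000, by linarith, by linarith, ?_⟩
  obtain ⟨X, hX1, hX⟩ := final_ineq c hc hc1
  apply Set.infinite_of_forall_exists_gt
  intro M
  obtain ⟨B, a, hBm, hSt, hac⟩ := hB (2 ^ 8 + 1 + M + ⌈X⌉₊ + 1)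
  have hlt : 2 ^ 8 + 1 + M + ⌈X⌉₊ + 1 < B := lt_of_lt_of_le Nat.lt_two_pow_self hBm
  have hBbig : 2 ^ 2 ^ 8 < B := by
    refine lt_of_lt_of_le ?_ hBm
    exact Nat.pow_lt_pow_right (by norm_num) (by omega)
  obtain ⟨k, hk1, hk2⟩ := sieve_part B hBbig
  have hB1 : 1 ≤ B := by omega
  obtain ⟨n, hn⟩ : ∃ n, n + 1 = B * (2 * k + 1) :=
    ⟨B * (2 * k + 1) - 1, by
      have : 1 ≤ B * (2 * k + 1) := Nat.mul_pos hB1 (by omega)
      omega⟩
  have hBn : B ≤ n + 1 := by rw [hn]; exact Nat.le_mul_of_pos_right _ (by omega)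
  refine ⟨n, ?_, by omega⟩
  have hd := diff_bound B a k hSt hk2 n hn
  have hBR : (0 : ℝ) < B := by exact_mod_cast hB1
  have hxX : X ≤ (n : ℝ) + 1 := by
    have h1 : ⌈X⌉₊ ≤ n + 1 := by omega
    calc X ≤ (⌈X⌉₊ : ℝ) := Nat.le_ceil X
      _ ≤ ((n + 1 : ℕ) : ℝ) := by exact_mod_cast h1
      _ = (n : ℝ) + 1 := by push_cast; ring
  have hpow : (n : ℝ) + 1 ≤ (B : ℝ) ^ (908 : ℕ) := by
    have h1 : n + 1 ≤ B ^ 908 := by
      rw [hn]
      have h2 : 2 * k + 1 ≤ B * B ^ 906 := by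
        have h3 : 3 ≤ B := by omega
        have h4 : 1 ≤ B ^ 906 := Nat.one_le_pow _ _ hB1
        calc 2 * k + 1 ≤ 3 * B ^ 906 := by omega
          _ ≤ B * B ^ 906 := Nat.mul_le_mul_right _ h3
      calc B * (2 * k + 1) ≤ B * (B * B ^ 906) := Nat.mul_le_mul_left _ h2
        _ = B ^ 908 := by rw [← pow_succ', ← pow_succ']
    exact_mod_cast h1
  have hfin := hX ((n : ℝ) + 1) hxX B hBR hpow
  show |((Nat.totient (n + 1) : ℝ) - (Nat.totient n : ℝ))| < (n : ℝ) ^ (1 - c / 1000)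
  have hab : (a : ℝ) / B ≤ (B : ℝ) ^ (-c) := by
    rw [div_le_iff₀ hBR]
    calc (a : ℝ) ≤ (B : ℝ) ^ (1 - c) := hac
      _ = (B : ℝ) ^ (-c) * B := by
        rw [sub_eq_neg_add, Real.rpow_add hBR, Real.rpow_one]
  have hn0 : (0 : ℝ) ≤ n := Nat.cast_nonneg n
  have hn1 : (1 : ℝ) ≤ n := by
    have : 1 ≤ n := by omega
    exact_mod_cast this
  calc |((Nat.totient (n + 1) : ℝ) - (Nat.totient n : ℝ))|
      ≤ ((n : ℝ) + 1) * (a / B + Real.log (n + 1) / B) + 1 / 2 := hd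
    _ ≤ ((n : ℝ) + 1) * ((B : ℝ) ^ (-c) + Real.log (n + 1) / B) + 1 / 2 := by
      have : ((n : ℝ) + 1) * (a / B + Real.log (n + 1) / B) ≤
          ((n : ℝ) + 1) * ((B : ℝ) ^ (-c) + Real.log (n + 1) / B) :=
        mul_le_mul_of_nonneg_left (by linarith) (by linarith)
      linarith
    _ < (((n : ℝ) + 1) / 2) ^ (1 - c / 1000) := hfin
    _ ≤ (n : ℝ) ^ (1 - c / 1000) := by
      apply Real.rpow_le_rpow (by linarith) (by linarith) (by linarith)

end Pool.Agent.Results.MP_a17a46_nt.PowerSaving
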